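import Mathlib

/-!
# The decay number is at most `2 χ(Gᶜ) - λ + 1` for `λ`-edge-connected graphs, `λ = 1, 2`
-/

namespace Pool.Agent.Results.MP_efdca5_co.DecayBound

open Finset

/-- `G` is `k`-edge-connected: any two distinct vertices are joined by `k` pairwise
edge-disjoint paths. -/
def EdgeConnected {V : Type} (k : ℕ) (G : SimpleGraph V) : Prop :=
  ∀ u v : V, u ≠ v → ∃ p : Fin k → G.Walk u v, (∀ i, (p i).IsPath) ∧
    ∀ i j, i ≠ j → ∀ e, e ∈ (p i).edges → e ∉ (p j).edges

/-- `y_G`, the maximum of `2 c(G - A) - |A| - 1` over all sets `A` of edges of `G`. -/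
noncomputable def decay {V : Type} (G : SimpleGraph V) : ℤ :=
  sSup {y : ℤ | ∃ A : Finset (Sym2 V), (A : Set (Sym2 V)) ⊆ G.edgeSet ∧
    y = 2 * (Nat.card (G.deleteEdges (A : Set (Sym2 V))).ConnectedComponent : ℤ) - A.card - 1}

/-- a finite graph has at most as many vertices as edges plus components -/
theorem forest {W : Type} [Finite W] (Γ : SimpleGraph W) :
    Nat.card W ≤ Nat.card Γ.edgeSet + Nat.card Γ.ConnectedComponent := by
  classical
  rcases isEmpty_or_nonempty W with hW | ⟨⟨w0⟩⟩
  · simp
  have hF : Finite Γ.ConnectedComponent := inferInstance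
  have := Fintype.ofFinite W
  have := Fintype.ofFinite Γ.ConnectedComponent
  set c0 := Γ.connectedComponentMk w0 with hc0
  let rep : Γ.ConnectedComponent → W := fun c => c.exists_rep.choose
  have hrep : ∀ c, Γ.connectedComponentMk (rep c) = c := fun c => c.exists_rep.choose_spec
  let T : Set (Sym2 W) := Set.range fun c : Γ.ConnectedComponent => s(rep c0, rep c)
  let Γ' : SimpleGraph W := Γ ⊔ SimpleGraph.fromEdgeSet T
  have hconn : Γ'.Connected := by
    have : Nonempty W := ⟨w0⟩
    have key : ∀ w, Γ'.Reachable (rep c0) w := by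
      intro w
      have h1 : Γ.Reachable (rep (Γ.connectedComponentMk w)) w :=
        SimpleGraph.ConnectedComponent.exact (hrep _)
      have h2 : Γ'.Reachable (rep (Γ.connectedComponentMk w)) w := h1.mono le_sup_left
      refine SimpleGraph.Reachable.trans ?_ h2
      by_cases h : rep c0 = rep (Γ.connectedComponentMk w)
      · rw [h]
      · refine SimpleGraph.Adj.reachable ?_
        right
        rw [SimpleGraph.fromEdgeSet_adj]
        exact ⟨⟨_, rfl⟩, h⟩
    exact SimpleGraph.Connected.mk fun u v => (key u).symm.trans (key v)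
  have h1 := hconn.card_vert_le_card_edgeSet_add_one
  have h2 : Γ'.edgeSet ⊆ Γ.edgeSet ∪
      ((fun c : Γ.ConnectedComponent => s(rep c0, rep c)) '' {c | c ≠ c0}) := by
    intro e he
    rw [SimpleGraph.edgeSet_sup] at he
    rcases he with he | he
    · exact Or.inl he
    · right
      rw [SimpleGraph.edgeSet_fromEdgeSet] at he
      obtain ⟨⟨c, rfl⟩, h3⟩ := he
      refine ⟨c, ?_, rfl⟩
      rintro rfl
      exact h3 (by simp)
  have h3 : Nat.card Γ'.edgeSet ≤ Nat.card Γ.edgeSet + (Nat.card Γ.ConnectedComponent - 1) := by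
    have e1 : Γ'.edgeSet.ncard ≤ (Γ.edgeSet ∪
      ((fun c : Γ.ConnectedComponent => s(rep c0, rep c)) '' {c | c ≠ c0})).ncard :=
      Set.ncard_le_ncard h2 (Set.toFinite _)
    have e2 := Set.ncard_union_le Γ.edgeSet
      ((fun c : Γ.ConnectedComponent => s(rep c0, rep c)) '' {c | c ≠ c0})
    have e3 : ((fun c : Γ.ConnectedComponent => s(rep c0, rep c)) '' {c | c ≠ c0}).ncard ≤
        ({c | c ≠ c0} : Set Γ.ConnectedComponent).ncard := Set.ncard_image_le (Set.toFinite _)
    have e4 : ({c | c ≠ c0} : Set Γ.ConnectedComponent).ncard =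
        Nat.card Γ.ConnectedComponent - 1 := by
      have : ({c | c ≠ c0} : Set Γ.ConnectedComponent) = ({c0} : Set _)ᶜ := by
        ext c; simp
      rw [this, Set.ncard_compl, Set.ncard_singleton]
    rw [Nat.card_coe_set_eq, Nat.card_coe_set_eq]
    omega
  have h4 : 0 < Nat.card Γ.ConnectedComponent := by
    have : Nonempty Γ.ConnectedComponent := ⟨c0⟩
    exact Nat.card_pos
  omega

section main

variable {V : Type} [Fintype V] (G : SimpleGraph V) (A : Finset (Sym2 V))

/-- the graph left after deleting `A` -/
abbrev H := G.deleteEdges (A : Set (Sym2 V))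

/-- component map -/
abbrev cm (v : V) : (H G A).ConnectedComponent := (H G A).connectedComponentMk v

omit [Fintype V] in
theorem cross_mem {u v : V} (h : G.Adj u v) (hc : cm G A u ≠ cm G A v) : s(u, v) ∈ A := by
  by_contra hA
  apply hc
  apply SimpleGraph.ConnectedComponent.sound
  apply SimpleGraph.Adj.reachable
  rw [SimpleGraph.deleteEdges_adj]
  exact ⟨h, by simpa using hA⟩

open Classical in
/-- ordered pairs spanning an edge of `A` -/
noncomputable def D : Finset (V × V) := Finset.univ.filter fun p => G.Adj p.1 p.2 ∧ s(p.1, p.2) ∈ A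

theorem card_D : (D G A).card ≤ 2 * A.card := by
  classical
  let K : SimpleGraph V := G ⊓ SimpleGraph.fromEdgeSet (A : Set (Sym2 V))
  have h2 : ∀ (inst : Fintype K.edgeSet), @SimpleGraph.edgeFinset V K inst ⊆ A := by
    intro _ e he
    rw [SimpleGraph.mem_edgeFinset, SimpleGraph.edgeSet_inf, SimpleGraph.edgeSet_fromEdgeSet] at he
    exact_mod_cast he.2.1
  have h4 : (D G A).card = #(univ.filter fun ((x, y) : V × V) => K.Adj x y) := by
    unfold D
    congr 1
    ext ⟨u, v⟩
    simp only [Finset.mem_filter, Finset.mem_univ, true_and]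
    show _ ↔ (G.Adj u v ∧ (SimpleGraph.fromEdgeSet (A : Set (Sym2 V))).Adj u v)
    rw [SimpleGraph.fromEdgeSet_adj]
    constructor
    · rintro ⟨a, b⟩
      exact ⟨a, by simpa using b, a.ne⟩
    · rintro ⟨a, b, _⟩
      exact ⟨a, by simpa using b⟩
  rw [h4, ← K.two_mul_card_edgeFinset]
  exact Nat.mul_le_mul_left 2 (Finset.card_le_card (h2 _))

variable {I : Type} [Fintype I] (f : V → I)

/-- the incidence graph of colour classes and components -/
def Inc : SimpleGraph (I ⊕ (H G A).ConnectedComponent) where
  Adj x y := (∃ v, x = Sum.inl (f v) ∧ y = Sum.inr (cm G A v)) ∨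
    (∃ v, y = Sum.inl (f v) ∧ x = Sum.inr (cm G A v))
  symm := ⟨fun x y h => h.symm⟩
  loopless := ⟨by
    rintro x (⟨v, h1, h2⟩ | ⟨v, h1, h2⟩)
    · rw [h1] at h2; cases h2
    · rw [h1] at h2; cases h2⟩

/-- the projection onto the components of the incidence graph -/
def pr (v : V) : (Inc G A f).ConnectedComponent :=
  (Inc G A f).connectedComponentMk (Sum.inl (f v))

omit [Fintype V] [Fintype I] in
theorem pr_eq (v : V) : pr G A f v =
    (Inc G A f).connectedComponentMk (Sum.inr (cm G A v)) := by
  apply SimpleGraph.ConnectedComponent.sound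
  exact SimpleGraph.Adj.reachable (Or.inl ⟨v, rfl, rfl⟩)

theorem pr_surj (hf : Function.Surjective f) : Function.Surjective (pr G A f) := by
  intro c
  obtain ⟨x, rfl⟩ := c.exists_rep
  rcases x with i | c
  · obtain ⟨v, rfl⟩ := hf i
    exact ⟨v, rfl⟩
  · obtain ⟨v, rfl⟩ := c.exists_rep
    exact ⟨v, pr_eq G A f v⟩

omit [Fintype V] [Fintype I] in
theorem pr_f {u v : V} (h : f u = f v) : pr G A f u = pr G A f v := by
  unfold pr; rw [h]

theorem pr_c {u v : V} (h : cm G A u = cm G A v) : pr G A f u = pr G A f v := by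
  rw [pr_eq, pr_eq, h]

open Classical in
/-- components meeting a colour class -/
noncomputable def Jc (i : I) : Finset (H G A).ConnectedComponent :=
  (Finset.univ.filter fun v => f v = i).image (cm G A)

theorem card_inc [Fintype (H G A).ConnectedComponent] :
    Nat.card (Inc G A f).edgeSet ≤ ∑ i, (Jc G A f i).card := by
  classical
  let P : Finset (Σ _ : I, (H G A).ConnectedComponent) :=
    Finset.univ.sigma fun i => Jc G A f i
  have hP : P.card = ∑ i, (Jc G A f i).card := Finset.card_sigma _ _
  rw [← hP, Nat.card_coe_set_eq]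
  have hsub : (Inc G A f).edgeSet ⊆
      ((P.image fun q => (s(Sum.inl q.1, Sum.inr q.2) :
        Sym2 (I ⊕ (H G A).ConnectedComponent))) : Finset _) := by
    intro e
    refine Sym2.ind (fun x y hxy => ?_) e
    rw [SimpleGraph.mem_edgeSet] at hxy
    rw [Finset.mem_coe, Finset.mem_image]
    rcases hxy with ⟨v, rfl, rfl⟩ | ⟨v, rfl, rfl⟩
    · refine ⟨⟨f v, cm G A v⟩, ?_, rfl⟩
      simp only [P, Finset.mem_sigma, Finset.mem_univ, true_and, Jc, Finset.mem_image,
        Finset.mem_filter]
      exact ⟨v, rfl, rfl⟩
    · refine ⟨⟨f v, cm G A v⟩, ?_, Sym2.eq_swap⟩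
      simp only [P, Finset.mem_sigma, Finset.mem_univ, true_and, Jc, Finset.mem_image,
        Finset.mem_filter]
      exact ⟨v, rfl, rfl⟩
  calc (Inc G A f).edgeSet.ncard ≤ _ := Set.ncard_le_ncard hsub (Finset.finite_toSet _)
    _ = _ := Set.ncard_coe_finset _
    _ ≤ _ := Finset.card_image_le

open Classical in
/-- ordered pairs spanning an edge between different components of the incidence graph -/
noncomputable def X : Finset (V × V) := (D G A).filter fun p => pr G A f p.1 ≠ pr G A f p.2

theorem mem_X {u v : V} (h : G.Adj u v) (hc : pr G A f u ≠ pr G A f v) :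
    (u, v) ∈ X G A f := by
  classical
  unfold X D
  simp only [Finset.mem_filter, Finset.mem_univ, true_and]
  exact ⟨⟨h, cross_mem G A h fun h' => hc (pr_c G A f h')⟩, hc⟩

theorem card_A (hcl : ∀ u v, u ≠ v → f u = f v → G.Adj u v) :
    ∑ i, ((Jc G A f i).card * (Jc G A f i).card - (Jc G A f i).card) + (X G A f).card ≤
      2 * A.card := by
  classical
  refine le_trans ?_ (card_D G A)
  have h1 : ∀ i, (Jc G A f i).card * (Jc G A f i).card - (Jc G A f i).card ≤
      ((D G A).filter fun p => f p.1 = i ∧ f p.2 = i).card := by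
    intro i
    rw [← Finset.offDiag_card]
    refine le_trans (Finset.card_le_card (t := ((D G A).filter fun p =>
      f p.1 = i ∧ f p.2 = i).image (Prod.map (cm G A) (cm G A))) ?_) Finset.card_image_le
    rintro ⟨c, c'⟩ hc
    rw [Finset.mem_offDiag] at hc
    obtain ⟨h1, h2, h3⟩ := hc
    simp only [Jc, Finset.mem_image, Finset.mem_filter, Finset.mem_univ, true_and] at h1 h2
    obtain ⟨u, hu, rfl⟩ := h1
    obtain ⟨v, hv, rfl⟩ := h2
    have huv : u ≠ v := by
      rintro rfl
      exact h3 rfl
    rw [Finset.mem_image]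
    refine ⟨(u, v), ?_, rfl⟩
    have hadj := hcl u v huv (hu.trans hv.symm)
    simp only [D, Finset.mem_filter, Finset.mem_univ, true_and]
    exact ⟨⟨hadj, cross_mem G A hadj h3⟩, hu, hv⟩
  have h2 : ∑ i, ((D G A).filter fun p => f p.1 = i ∧ f p.2 = i).card =
      ((D G A).filter fun p => f p.1 = f p.2).card := by
    rw [Finset.card_eq_sum_card_fiberwise (f := fun p : V × V => f p.1) (t := Finset.univ)
      (fun x _ => by simp)]
    refine Finset.sum_congr rfl fun i _ => ?_
    congr 1
    ext p
    simp only [Finset.mem_filter]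
    constructor
    · rintro ⟨a, b, c⟩
      exact ⟨⟨a, b.trans c.symm⟩, b⟩
    · rintro ⟨⟨a, b⟩, c⟩
      exact ⟨a, c, b.symm.trans c⟩
  have h3 : X G A f ⊆ (D G A).filter fun p => ¬ f p.1 = f p.2 := by
    intro p hp
    unfold X at hp
    rw [Finset.mem_filter] at hp ⊢
    exact ⟨hp.1, fun h => hp.2 (pr_f G A f h)⟩
  have h4 := Finset.card_le_card h3
  have h5 := Finset.card_filter_add_card_filter_not (s := D G A) (fun p => f p.1 = f p.2)
  have h6 := Finset.sum_le_sum fun i (_ : i ∈ (Finset.univ : Finset I)) => h1 i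
  rw [h2] at h6
  omega

/-- lower bound for crossing pairs from connectedness -/
theorem card_X_one (hG : G.Connected) (hf : Function.Surjective f) :
    2 * Nat.card (Inc G A f).ConnectedComponent ≤ (X G A f).card + 2 := by
  classical
  have := Fintype.ofFinite (Inc G A f).ConnectedComponent
  let Q : SimpleGraph (Inc G A f).ConnectedComponent :=
    { Adj := fun c c' => c ≠ c' ∧ ∃ u v, G.Adj u v ∧ pr G A f u = c ∧ pr G A f v = c'
      symm := ⟨fun c c' h => ⟨h.1.symm, by
        obtain ⟨u, v, h1, h2, h3⟩ := h.2
        exact ⟨v, u, h1.symm, h3, h2⟩⟩⟩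
      loopless := ⟨fun c h => h.1 rfl⟩ }
  have hreach : ∀ u v, G.Reachable u v → Q.Reachable (pr G A f u) (pr G A f v) := by
    rintro u v ⟨p⟩
    induction p with
    | nil => exact SimpleGraph.Reachable.refl _
    | @cons a b c hab p ih =>
      by_cases h : pr G A f a = pr G A f b
      · rw [h]; exact ih
      · refine SimpleGraph.Reachable.trans ?_ ih
        refine SimpleGraph.Adj.reachable ?_
        exact ⟨h, a, b, hab, rfl, rfl⟩
  have hQ : Q.Connected := by
    obtain ⟨v0⟩ := hG.nonempty
    have : Nonempty (Inc G A f).ConnectedComponent := ⟨pr G A f v0⟩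
    refine SimpleGraph.Connected.mk fun c c' => ?_
    obtain ⟨u, rfl⟩ := pr_surj G A f hf c
    obtain ⟨v, rfl⟩ := pr_surj G A f hf c'
    exact hreach u v (hG.preconnected u v)
  have h1 := hQ.card_vert_le_card_edgeSet_add_one
  have h2 := Q.two_mul_card_edgeFinset
  have h3 : #(univ.filter fun ((x, y) : (Inc G A f).ConnectedComponent ×
      (Inc G A f).ConnectedComponent) => Q.Adj x y) ≤ (X G A f).card := by
    refine le_trans (Finset.card_le_card (t := (X G A f).image
      (Prod.map (pr G A f) (pr G A f))) ?_) Finset.card_image_le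
    rintro ⟨c, c'⟩ hc
    rw [Finset.mem_filter] at hc
    obtain ⟨-, hne, u, v, huv, hu, hv⟩ := hc
    rw [Finset.mem_image]
    refine ⟨(u, v), mem_X G A f huv (by rw [hu, hv]; exact hne), ?_⟩
    simp only [Prod.map_apply, hu, hv]
  rw [← h2] at h3
  rw [Nat.card_eq_fintype_card (α := Q.edgeSet), ← SimpleGraph.edgeFinset_card] at h1
  have h4 : 2 * Nat.card (Inc G A f).ConnectedComponent ≤ 2 * (#Q.edgeFinset + 1) :=
    Nat.mul_le_mul_left 2 h1
  refine h4.trans ?_
  rw [mul_add, mul_one]
  exact Nat.add_le_add_right h3 2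

/-- lower bound for crossing pairs from 2-edge-connectedness -/
theorem card_X_two (hG : EdgeConnected 2 G) (hf : Function.Surjective f)
    (hk : 2 ≤ Nat.card (Inc G A f).ConnectedComponent) :
    2 * Nat.card (Inc G A f).ConnectedComponent ≤ (X G A f).card := by
  classical
  have := Fintype.ofFinite (Inc G A f).ConnectedComponent
  have h1 : ∀ c : (Inc G A f).ConnectedComponent,
      2 ≤ ((X G A f).filter fun p => pr G A f p.1 = c).card := by
    intro c
    obtain ⟨u, hu⟩ := pr_surj G A f hf c
    obtain ⟨c', hc'⟩ : ∃ c', c' ≠ c := by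
      have : Nontrivial (Inc G A f).ConnectedComponent := by
        rw [← Finite.one_lt_card_iff_nontrivial]; omega
      exact exists_ne c
    obtain ⟨v, hv⟩ := pr_surj G A f hf c'
    have huv : u ≠ v := by
      rintro rfl
      exact hc' (hv.symm.trans hu)
    obtain ⟨p, -, hp⟩ := hG u v huv
    obtain ⟨d0, hd0, h01, h02⟩ := (p 0).exists_boundary_dart {x | pr G A f x = c} hu
      (fun h => hc' (hv.symm.trans h))
    obtain ⟨d1, hd1, h11, h12⟩ := (p 1).exists_boundary_dart {x | pr G A f x = c} hu
      (fun h => hc' (hv.symm.trans h))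
    have hne : d0.edge ≠ d1.edge := by
      intro h
      have a0 : d0.edge ∈ (p 0).edges := List.mem_map_of_mem hd0
      have a1 : d1.edge ∈ (p 1).edges := List.mem_map_of_mem hd1
      exact hp 0 1 (by decide) _ a0 (h ▸ a1)
    have hne' : ((d0.fst, d0.snd) : V × V) ≠ (d1.fst, d1.snd) := by
      intro h
      apply hne
      rw [Prod.mk.injEq] at h
      show s(d0.fst, d0.snd) = s(d1.fst, d1.snd)
      rw [h.1, h.2]
    rw [← Finset.card_pair hne']
    apply Finset.card_le_card
    intro q hq
    rw [Finset.mem_insert, Finset.mem_singleton] at hq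
    rcases hq with rfl | rfl
    · rw [Finset.mem_filter]
      exact ⟨mem_X G A f d0.adj (fun h => h02 (h.symm.trans h01)), h01⟩
    · rw [Finset.mem_filter]
      exact ⟨mem_X G A f d1.adj (fun h => h12 (h.symm.trans h11)), h11⟩
  rw [Finset.card_eq_sum_card_fiberwise (f := fun p : V × V => pr G A f p.1) (t := Finset.univ)
      (fun x _ => by simp)]
  calc 2 * Nat.card (Inc G A f).ConnectedComponent
      = ∑ c : (Inc G A f).ConnectedComponent, 2 := by
        rw [Finset.sum_const, Finset.card_univ, Nat.card_eq_fintype_card, smul_eq_mul, mul_comm]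
    _ ≤ _ := Finset.sum_le_sum fun c _ => h1 c

/-- the main inequality -/
theorem main_ineq (hcl : ∀ u v, u ≠ v → f u = f v → G.Adj u v) :
    4 * (Nat.card (H G A).ConnectedComponent : ℤ) - 2 * A.card - 2 ≤
      2 * (Fintype.card I : ℤ) + 4 * Nat.card (Inc G A f).ConnectedComponent -
        (X G A f).card - 2 := by
  classical
  have := Fintype.ofFinite (H G A).ConnectedComponent
  have h1 := forest (Inc G A f)
  have h2 := card_inc G A f
  have h3 := card_A G A f hcl
  rw [Nat.card_sum, Nat.card_eq_fintype_card (α := I)] at h1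
  have h4 : ∀ j : ℕ, 4 * j ≤ (j * j - j) + 6 := by
    intro j
    have : j ≤ j * j := Nat.le_mul_self j
    zify [this]
    rcases Nat.lt_or_ge j 3 with h | h
    · interval_cases j <;> norm_num
    · have : (3 : ℤ) ≤ j := by exact_mod_cast h
      nlinarith
  have h5 : ∑ i, 4 * (Jc G A f i).card ≤ ∑ i, (((Jc G A f i).card * (Jc G A f i).card -
      (Jc G A f i).card) + 6) := Finset.sum_le_sum fun i _ => h4 _
  rw [← Finset.mul_sum, Finset.sum_add_distrib, Finset.sum_const, Finset.card_univ,
    smul_eq_mul] at h5
  omega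

/-- complete graphs -/
theorem complete_ineq (hcl : ∀ u v, u ≠ v → G.Adj u v) :
    Fintype.card V * (Nat.card (H G A).ConnectedComponent - 1) ≤ 2 * A.card := by
  classical
  have := Fintype.ofFinite (H G A).ConnectedComponent
  refine le_trans ?_ (card_D G A)
  rw [Finset.card_eq_sum_card_fiberwise (f := fun p : V × V => p.1) (t := Finset.univ)
      (fun x _ => by simp)]
  rw [← Finset.card_univ, ← smul_eq_mul, ← Finset.sum_const]
  refine Finset.sum_le_sum fun v _ => ?_
  have h1 : Nat.card (H G A).ConnectedComponent - 1 =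
      ((Finset.univ : Finset (H G A).ConnectedComponent).erase (cm G A v)).card := by
    rw [Finset.card_erase_of_mem (Finset.mem_univ _), Finset.card_univ,
      Nat.card_eq_fintype_card]
  rw [h1]
  refine le_trans (Finset.card_le_card (t := ((D G A).filter fun p =>
      p.1 = v).image (fun p => cm G A p.2)) ?_) Finset.card_image_le
  intro c hc
  rw [Finset.mem_erase] at hc
  obtain ⟨u, rfl⟩ := c.exists_rep
  have huv : v ≠ u := by
    rintro rfl
    exact hc.1 rfl
  rw [Finset.mem_image]
  refine ⟨(v, u), ?_, rfl⟩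
  simp only [D, Finset.mem_filter, Finset.mem_univ, true_and, and_true]
  have hadj := hcl v u huv
  exact ⟨hadj, cross_mem G A hadj fun h => hc.1 h.symm⟩

end main

/-- bound for a single edge set -/
theorem bound {V : Type} [Fintype V] [Nonempty V] (G : SimpleGraph V) (l : ℕ)
    (hl : l = 1 ∨ l = 2) (hG : EdgeConnected l G)
    (hC : ¬ Nonempty (G ≃g SimpleGraph.cycleGraph 3)) (A : Finset (Sym2 V)) (n : ℕ)
    (hn : Gᶜ.Colorable n) :
    2 * (Nat.card (G.deleteEdges (A : Set (Sym2 V))).ConnectedComponent : ℤ) - A.card - 1 ≤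
      2 * n - l + 1 := by
  classical
  show 2 * (Nat.card (H G A).ConnectedComponent : ℤ) - A.card - 1 ≤ 2 * n - l + 1
  obtain ⟨φ⟩ := hn
  let I := Set.range φ
  have : Fintype I := Fintype.ofFinite I
  let f : V → I := fun v => ⟨φ v, v, rfl⟩
  have hf : Function.Surjective f := by
    rintro ⟨_, v, rfl⟩
    exact ⟨v, rfl⟩
  have hcl : ∀ u v, u ≠ v → f u = f v → G.Adj u v := by
    intro u v huv h
    by_contra hadj
    have h1 : Gᶜ.Adj u v := by
      rw [SimpleGraph.compl_adj]
      exact ⟨huv, hadj⟩
    exact φ.valid h1 (by simpa [f] using h)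
  have hIn : Fintype.card I ≤ n := by
    have h1 := Fintype.card_le_of_injective (Subtype.val : I → Fin n) Subtype.val_injective
    rwa [Fintype.card_fin] at h1
  have hconn : G.Connected := by
    refine SimpleGraph.Connected.mk fun u v => ?_
    by_cases h : u = v
    · rw [h]
    · obtain ⟨p, -, -⟩ := hG u v h
      rcases hl with rfl | rfl
      · exact ⟨p 0⟩
      · exact ⟨p 0⟩
  have hmain := main_ineq G A f hcl
  have hk : Nat.card (Inc G A f).ConnectedComponent ≤ Fintype.card I := by
    rw [← Nat.card_eq_fintype_card (α := I)]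
    refine Nat.card_le_card_of_surjective
      (fun i : I => (Inc G A f).connectedComponentMk (Sum.inl i)) ?_
    intro c
    obtain ⟨v, rfl⟩ := pr_surj G A f hf c
    exact ⟨f v, rfl⟩
  have hx1 := card_X_one G A f hconn hf
  rcases hl with rfl | rfl
  · push_cast
    omega
  · by_cases hk2 : 2 ≤ Nat.card (Inc G A f).ConnectedComponent
    · have hx2 := card_X_two G A f hG hf hk2
      push_cast
      omega
    · by_cases hI : 2 ≤ Fintype.card I
      · push_cast
        omega
      · -- complete graph
        have hI1 : Fintype.card I ≤ 1 := by omega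
        have hsub : Subsingleton I := Fintype.card_le_one_iff_subsingleton.mp hI1
        have hcl' : ∀ u v, u ≠ v → G.Adj u v := fun u v huv =>
          hcl u v huv (Subsingleton.elim _ _)
        have hI0 : 1 ≤ Fintype.card I := by
          have : Nonempty I := ⟨f (Classical.arbitrary V)⟩
          exact Fintype.card_pos
        have hci := complete_ineq G A hcl'
        have hm : Nat.card (H G A).ConnectedComponent ≤ Fintype.card V := by
          rw [← Nat.card_eq_fintype_card (α := V)]
          exact Nat.card_le_card_of_surjective (cm G A) (fun c => c.exists_rep)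
        have hm1 : 1 ≤ Nat.card (H G A).ConnectedComponent := by
          have : Nonempty (H G A).ConnectedComponent := ⟨cm G A (Classical.arbitrary V)⟩
          exact Nat.card_pos
        have hV : Fintype.card V = 1 ∨ 4 ≤ Fintype.card V := by
          by_contra hV
          push Not at hV
          have hV0 : 0 < Fintype.card V := Fintype.card_pos
          have hV23 : Fintype.card V = 2 ∨ Fintype.card V = 3 := by omega
          rcases hV23 with hV2 | hV3
          · rw [← Finset.card_univ, Finset.card_eq_two] at hV2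
            obtain ⟨u, v, huv, huniv'⟩ := hV2
            have huniv : ∀ x, x = u ∨ x = v := by
              intro x
              have := Finset.mem_univ x
              rw [huniv'] at this
              simpa using this
            obtain ⟨p, -, hp⟩ := hG u v huv
            have key : ∀ i, s(u, v) ∈ (p i).edges := by
              intro i
              obtain ⟨d, hd, h1, h2⟩ := (p i).exists_boundary_dart {u} rfl huv.symm
              have e1 : d.fst = u := h1
              have e2 : d.snd = v := by
                have := huniv d.snd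
                rcases this with h | h
                · exact absurd h h2
                · exact h
              have : d.edge = s(u, v) := by
                show s(d.fst, d.snd) = s(u, v)
                rw [e1, e2]
              rw [← this]
              exact List.mem_map_of_mem hd
            exact hp 0 1 (by decide) _ (key 0) (key 1)
          · apply hC
            have htop : G = ⊤ := by
              ext u v
              rw [SimpleGraph.top_adj]
              exact ⟨fun h => h.ne, hcl' u v⟩
            rw [htop, SimpleGraph.cycleGraph_three_eq_top]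
            exact ⟨SimpleGraph.Iso.completeGraph (Fintype.equivFinOfCardEq hV3)⟩
        push_cast
        rcases hV with hV | hV
        · omega
        · have : 4 * (Nat.card (H G A).ConnectedComponent - 1) ≤ 2 * A.card :=
            le_trans (Nat.mul_le_mul_right _ hV) hci
          omega

/-- **Theorem.** For `l = 1, 2` and every `l`-edge-connected finite graph `G` not isomorphic to
`C_3`, the decay number satisfies `y_G ≤ 2 χ(Gᶜ) - l + 1`. -/
theorem result {V : Type} [Fintype V] [Nonempty V] (G : SimpleGraph V) (l : ℕ)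
    (hl : l = 1 ∨ l = 2) (hG : EdgeConnected l G)
    (hC : ¬ Nonempty (G ≃g SimpleGraph.cycleGraph 3)) :
    decay G ≤ 2 * (Gᶜ.chromaticNumber.toNat : ℤ) - l + 1 := by
  unfold decay
  apply csSup_le
  · exact ⟨_, ∅, by simp, rfl⟩
  · rintro y ⟨A, -, rfl⟩
    exact bound G l hl hG hC A _ (SimpleGraph.colorable_chromaticNumber Gᶜ.colorable_of_fintype)

end Pool.Agent.Results.MP_efdca5_co.DecayBound
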